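import Mathlib
import Pool.Agent.KS6_31.WeylB

set_option autoImplicit false

/-! # MP_0ea415_nt: Littlewood's conjecture along all polynomial sequences with an irrational coefficient

Call `(α, β)` `ε`-good if `q ‖qα‖ ‖qβ‖ < ε` for infinitely many `q`; Littlewood's conjecture says that
all pairs are `ε`-good for all `ε > 0`. Let `0 < ε ≤ 1/2` and let `P` be a real polynomial of degree at
most `d` with at least one IRRATIONAL nonconstant coefficient. For every real `α` the pairs
`(α, P(l))`, `0 ≤ l < N`, are `ε`-good with at most `(C / ε) N^(1 - c ε²)` exceptions, where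
`c, C > 0` only depend on `d`.

The condition on `P` is that of Weyl's theorem, and it cannot be weakened without proving Littlewood's
conjecture: if the nonconstant coefficients are rational, then `P(l)` modulo one takes finitely many
values only, among them `P(0)`, which is arbitrary.

Before, such a bound was known for polynomials with a nonconstant coefficient that is not in
`ℚ + ℚα` (and it was not uniform in these polynomials). The new ingredient are shears
(`Pool/Agent/KS6_31/Shear.lean`): for all real `α, β` every interval of length `M > 0` contains an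
interval of length `3/10 ε² M` such that `(α, β + sα)` is `ε`-good for all integers `s` in it.
-/

open Filter Polynomial

namespace Pool.Agent.Results.MP_0ea415_nt.WeylProgressions

/-- `q ‖qα‖ ‖qβ‖ < ε` for infinitely many `q` -/
def Good (ε α β : ℝ) : Prop :=
  ∃ᶠ q : ℕ in atTop, (q : ℝ) * |q * α - round (q * α)| * |q * β - round (q * β)| < ε

open Classical in
/-- **Main result.** -/
theorem result (d : ℕ) : ∃ c C : ℝ, 0 < c ∧ 0 < C ∧ ∀ ε : ℝ, 0 < ε → ε ≤ 1 / 2 →
    ∀ (α : ℝ) (P : ℝ[X]), P.natDegree ≤ d → (∃ j, 1 ≤ j ∧ Irrational (P.coeff j)) →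
      ∀ N : ℕ, 1 ≤ N →
        (((Finset.range N).filter (fun l : ℕ => ¬ Good ε α (P.eval (l : ℝ)))).card : ℝ) ≤
          C / ε * (N : ℝ) ^ (1 - c * ε ^ 2) :=
  Pool.Agent.KS6_31.weyl d

end Pool.Agent.Results.MP_0ea415_nt.WeylProgressions
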